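import Pool.Agent.T2h81.EA.B4
import Pool.Agent.N806.HG.CHOW

set_option autoImplicit false

/-!
# The Möbius exponential sum on every arc

Let `F_R(x) = ∑_{n ≤ R} μ(n) e(nx)`. By Parseval the mean of `|F_R|²` over the circle is `(6/π² + o(1)) R`, which gives
the lower bound `1/2` for the growth exponent of the supremum norm. Here the circle is replaced by an arbitrary arc.

(1) There is a set `E` of logarithmic density zero such that for all scales `T` outside `E`, simultaneously for all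
`R` in `[T, K T]` and ALL arcs, the mean of `|F_R|²` over the arc is `6/π² R`, and the mean of the square of the real
part of `w F_R` is `3/π² R`, for all `w` of absolute value `1` (the error is `ε R` for the integrals, so that the
arcs may have any length which does not tend to zero). In particular every arc of length `ε` contains points where
`|F_R| > (√6/π - ε) √R`, and points where the absolute value of the real part of `w F_R` is larger than `(√3/π - ε) √R`.

(2) For given `K`, `ε` such scales `T` exist in all windows `(T, B T]`, `B` a constant.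

(3) For all `x` in a comeagre set: the limit superior of `|F_R(x)| / √R` is at least `√6/π`; the same at all points
`r x + s`, `r ≠ 0` and `s` rational. (4) For every direction `w` the same with the real part of `w F_R` and `√3/π`
(for instance for the sums of `μ(n) cos(2πnx)` and of `μ(n) sin(2πnx)`).

Method. The Fourier coefficients of `|F_R|²` are the two point correlations of the Möbius function, which are `o(R)` at
almost all scales by the theorem of Tao (in the starting library for natural averages at almost all scales, project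
`N806.HG`), and those of `F_R²` are bounded. One passes to arcs by the theorem of Stone and Weierstrass. (3) and (4)
follow from the density of the points with large values and the theorem of Baire.
-/

namespace Pool.Agent.Results.MP_b6b996_nt.EveryArc

open Filter Topology

/-- The Möbius exponential sum `F_R(x) = ∑_{n=1}^R μ(n) e^{2πinx}`. -/
noncomputable def F (R : ℕ) (x : ℝ) : ℂ :=
  ∑ n ∈ Finset.Icc 1 R, ((ArithmeticFunction.moebius n : ℤ) : ℂ) *
    Complex.exp (2 * Real.pi * Complex.I * n * x)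

open Classical in
/-- The set `E` has logarithmic density zero. -/
def LogDensityZero (E : Set ℕ) : Prop := Tendsto
  (fun X : ℕ => (∑ n ∈ Finset.Icc 1 X, if n ∈ E then (1 : ℝ) / n else 0) / Real.log X) atTop (𝓝 0)

/-- The integrals of `|F_R|²` and of `(Re w F_R)²`, `|w| = 1`, over every arc `[α, β]` of the circle are
`6/π² (β - α) R` and `3/π² (β - α) R`, up to `ε R`. -/
def LocalParseval (ε : ℝ) (R : ℕ) : Prop := ∀ α β : ℝ, α ≤ β → β ≤ α + 1 →
  |(∫ x in α..β, ‖F R x‖ ^ 2) - 6 / Real.pi ^ 2 * (β - α) * R| ≤ ε * R ∧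
  ∀ w : ℂ, ‖w‖ = 1 → |(∫ x in α..β, (w * F R x).re ^ 2) - 3 / Real.pi ^ 2 * (β - α) * R| ≤ ε * R

/-- Every arc of length `ε` contains points with `|F_R| > (√6/π - ε) √R`, and for every `w` with `|w| = 1` points
with `|Re w F_R| > (√3/π - ε) √R`. -/
def LargeEverywhere (ε : ℝ) (R : ℕ) : Prop := ∀ α β : ℝ, α + ε ≤ β →
  (∃ x ∈ Set.Ioo α β, (Real.sqrt 6 / Real.pi - ε) * Real.sqrt R < ‖F R x‖) ∧
  ∀ w : ℂ, ‖w‖ = 1 → ∃ x ∈ Set.Ioo α β, (Real.sqrt 3 / Real.pi - ε) * Real.sqrt R < |(w * F R x).re|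

open Pool.Agent.T2h81.EA in
lemma F_eq (R : ℕ) (x : ℝ) : F R x = Pool.Agent.T2h81.EA.F mu R x := by
  unfold F Pool.Agent.T2h81.EA.F
  apply Finset.sum_congr rfl
  intro n _
  unfold mu
  push_cast
  rfl

lemma F_cont (R : ℕ) : Continuous (F R) := by
  unfold F
  fun_prop

lemma sq6 : (Real.sqrt 6 / Real.pi) ^ 2 = 6 / Real.pi ^ 2 := by
  rw [div_pow, Real.sq_sqrt (by norm_num)]

lemma sq3 : (Real.sqrt 3 / Real.pi) ^ 2 = 3 / Real.pi ^ 2 := by
  rw [div_pow, Real.sq_sqrt (by norm_num)]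

/-- local Parseval from the library -/
lemma local_of {ε η : ℝ} (hη : η ≤ ε / 2) (hη0 : 0 < η) {R : ℕ}
    (h : Pool.Agent.T2h81.EA.Equi Pool.Agent.T2h81.EA.mu (6 / Real.pi ^ 2) η R) : LocalParseval ε R := by
  intro α β hαβ hβ
  have hR0 : (0 : ℝ) ≤ R := Nat.cast_nonneg _
  constructor
  · have h1 := h.norm hαβ hβ
    simp only [← F_eq] at h1
    refine h1.trans ?_
    nlinarith
  · intro w hw
    have h1 := h w hw α β hαβ hβ
    unfold Pool.Agent.T2h81.EA.En Pool.Agent.T2h81.EA.dir at h1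
    simp only [← F_eq] at h1
    rw [show 6 / Real.pi ^ 2 / 2 = 3 / Real.pi ^ 2 by ring] at h1
    refine h1.trans ?_
    nlinarith

/-- large values from local Parseval -/
lemma large_one {g : ℝ → ℝ} (hg : Continuous g) (h0 : ∀ x, 0 ≤ g x) {α β s l η c : ℝ} {R : ℕ}
    (hl : 0 < l) (hβ : α + l ≤ β) (hR : 1 ≤ R)
    (h : |(∫ x in α..(α + l), g x ^ 2) - s ^ 2 * (α + l - α) * R| ≤ η * R)
    (hη : η < (s ^ 2 - (max c 0) ^ 2) * l) : ∃ x ∈ Set.Ioo α β, c * Real.sqrt R < g x := by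
  obtain ⟨x, hx, hx2⟩ := Pool.Agent.T2h81.EA.large_of hg h0 (by linarith) hR h
    (c := max c 0) (by rw [add_sub_cancel_left]; exact hη)
  refine ⟨x, ⟨hx.1, lt_of_lt_of_le hx.2 hβ⟩, lt_of_le_of_lt ?_ hx2⟩
  exact mul_le_mul_of_nonneg_right (le_max_left _ _) (Real.sqrt_nonneg _)

lemma gap_pos {c s : ℝ} (hc : c < s) (hs : 0 < s) : 0 < s ^ 2 - (max c 0) ^ 2 := by
  have h1 : max c 0 < s := max_lt hc hs
  have h2 : 0 ≤ max c 0 := le_max_right _ _
  nlinarith

lemma s6 : 0 < Real.sqrt 6 / Real.pi := div_pos (Real.sqrt_pos.2 (by norm_num)) Real.pi_pos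

lemma s3 : 0 < Real.sqrt 3 / Real.pi := div_pos (Real.sqrt_pos.2 (by norm_num)) Real.pi_pos

/-- large values on an arc, for the absolute value -/
lemma large6 (c l : ℝ) (hc : c < Real.sqrt 6 / Real.pi) (hl : 0 < l) (hl1 : l ≤ 1) : ∃ η : ℝ, 0 < η ∧
    ∀ R : ℕ, 1 ≤ R → LocalParseval η R → ∀ α β : ℝ, α + l ≤ β →
      ∃ x ∈ Set.Ioo α β, c * Real.sqrt R < ‖F R x‖ := by
  have h1 := mul_pos (gap_pos hc s6) hl
  refine ⟨(((Real.sqrt 6 / Real.pi) ^ 2 - (max c 0) ^ 2) * l) / 2, by positivity, fun R hR h α β hβ => ?_⟩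
  have h2 := (h α (α + l) (by linarith) (by linarith)).1
  rw [← sq6] at h2
  exact large_one (g := fun x => ‖F R x‖) (F_cont R).norm (fun _ => norm_nonneg _) hl hβ hR h2 (by linarith)

/-- large values on an arc, for the real parts -/
lemma large3 (c l : ℝ) (hc : c < Real.sqrt 3 / Real.pi) (hl : 0 < l) (hl1 : l ≤ 1) : ∃ η : ℝ, 0 < η ∧
    ∀ R : ℕ, 1 ≤ R → LocalParseval η R → ∀ α β : ℝ, α + l ≤ β → ∀ w : ℂ, ‖w‖ = 1 →
      ∃ x ∈ Set.Ioo α β, c * Real.sqrt R < |(w * F R x).re| := by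
  have h1 := mul_pos (gap_pos hc s3) hl
  refine ⟨(((Real.sqrt 3 / Real.pi) ^ 2 - (max c 0) ^ 2) * l) / 2, by positivity, fun R hR h α β hβ w hw => ?_⟩
  have h2 := (h α (α + l) (by linarith) (by linarith)).2 w hw
  rw [← sq3] at h2
  have h3 : (∫ x in α..(α + l), (w * F R x).re ^ 2) = ∫ x in α..(α + l), |(w * F R x).re| ^ 2 := by
    apply intervalIntegral.integral_congr
    intro x _
    simp only [sq_abs]
  rw [h3] at h2
  exact large_one (g := fun x => |(w * F R x).re|)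
    (Complex.continuous_re.comp (continuous_const.mul (F_cont R))).abs (fun _ => abs_nonneg _) hl hβ hR h2
    (by linarith)

lemma mono {η ε : ℝ} (h : η ≤ ε) {R : ℕ} (hR : LocalParseval η R) : LocalParseval ε R := by
  intro α β hαβ hβ
  have hR0 : (0 : ℝ) ≤ R := Nat.cast_nonneg _
  have h2 : η * (R : ℝ) ≤ ε * R := mul_le_mul_of_nonneg_right h hR0
  exact ⟨(hR α β hαβ hβ).1.trans h2, fun w hw => ((hR α β hαβ hβ).2 w hw).trans h2⟩

/-- both properties -/
lemma both (ε : ℝ) (hε : 0 < ε) : ∃ η : ℝ, 0 < η ∧ ∀ R : ℕ, 1 ≤ R →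
    Pool.Agent.T2h81.EA.Equi Pool.Agent.T2h81.EA.mu (6 / Real.pi ^ 2) η R →
      LocalParseval ε R ∧ LargeEverywhere ε R := by
  obtain ⟨η₁, h1, k1⟩ := large6 (Real.sqrt 6 / Real.pi - ε) (min ε 1) (by linarith) (lt_min hε one_pos)
    (min_le_right _ _)
  obtain ⟨η₂, h2, k2⟩ := large3 (Real.sqrt 3 / Real.pi - ε) (min ε 1) (by linarith) (lt_min hε one_pos)
    (min_le_right _ _)
  refine ⟨min ε (min η₁ η₂) / 2, by positivity, fun R hR h => ?_⟩
  have h3 : LocalParseval (min ε (min η₁ η₂)) R := local_of le_rfl (by positivity) h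
  refine ⟨mono (min_le_left _ _) h3, fun α β hαβ => ?_⟩
  have h4 : α + min ε 1 ≤ β := by
    have := min_le_left ε (1 : ℝ)
    linarith
  exact ⟨k1 R hR (mono ((min_le_right _ _).trans (min_le_left _ _)) h3) α β h4,
    fun w hw => k2 R hR (mono ((min_le_right _ _).trans (min_le_right _ _)) h3) α β h4 w hw⟩

/-- arbitrarily large good `R` -/
lemma exists_good (η : ℝ) (hη : 0 < η) (N : ℕ) : ∃ R : ℕ, N ≤ R ∧ 1 ≤ R ∧ LocalParseval η R := by
  obtain ⟨B, T0, -, h⟩ := Pool.Agent.T2h81.EA.equi_win 0 (η / 2) (by positivity)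
  obtain ⟨T', h1, -, h3⟩ := h (T0 + N) (by omega)
  refine ⟨T', by omega, by omega, local_of le_rfl (by positivity) (h3 T' le_rfl ?_)⟩
  rw [Real.exp_zero, one_mul]

/-- intervals and affine maps -/
lemma affine {r s u v : ℝ} (hr : r ≠ 0) (huv : u < v) : ∃ α β : ℝ, α < β ∧
    ∀ y ∈ Set.Ioo α β, ∃ x ∈ Set.Ioo u v, r * x + s = y := by
  rcases lt_or_gt_of_ne hr with h | h
  · refine ⟨r * v + s, r * u + s, by nlinarith, fun y hy => ⟨(y - s) / r, ⟨?_, ?_⟩, by field_simp; ring⟩⟩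
    · rw [lt_div_iff_of_neg h]
      linarith [hy.2]
    · rw [div_lt_iff_of_neg h]
      linarith [hy.1]
  · refine ⟨r * u + s, r * v + s, by nlinarith, fun y hy => ⟨(y - s) / r, ⟨?_, ?_⟩, by field_simp; ring⟩⟩
    · rw [lt_div_iff₀ h]
      linarith [hy.1]
    · rw [div_lt_iff₀ h]
      linarith [hy.2]

/-- generic points, one constant -/
lemma generic (G : ℕ → ℝ → ℝ) (hG : ∀ R, Continuous (G R)) (c₀ : ℝ)
    (h : ∀ c l : ℝ, c < c₀ → 0 < l → l ≤ 1 → ∃ η : ℝ, 0 < η ∧ ∀ R : ℕ, 1 ≤ R → LocalParseval η R →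
      ∀ α β : ℝ, α + l ≤ β → ∃ x ∈ Set.Ioo α β, c * Real.sqrt R < G R x) :
    ∀ᶠ x in residual ℝ, ∀ r s : ℚ, r ≠ 0 → ∀ c : ℝ, c < c₀ →
      ∃ᶠ R : ℕ in atTop, c * Real.sqrt R < G R (r * x + s) := by
  have h1 : ∀ (r s q : ℚ), ∀ᶠ x in residual ℝ, r ≠ 0 → (q : ℝ) < c₀ →
      ∃ᶠ R : ℕ in atTop, (q : ℝ) * Real.sqrt R < G R (r * x + s) := by
    intro r s q
    by_cases hr : r = 0
    · exact Eventually.of_forall fun x h => absurd hr h
    by_cases hq : (q : ℝ) < c₀
    · have hr' : (r : ℝ) ≠ 0 := by exact_mod_cast hr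
      have h2 := Pool.Agent.T2h81.EA.gen_resid (G := fun R x => G R (r * x + s))
        (fun R => (hG R).comp (by fun_prop)) (fun R => (q : ℝ) * Real.sqrt R) ?_
      · filter_upwards [h2] with x hx _ _
        exact hx
      · intro u v huv N
        obtain ⟨α, β, hαβ, hx⟩ := affine (s := s) hr' huv
        obtain ⟨η, hη, h3⟩ := h q (min (β - α) 1) hq (lt_min (by linarith) one_pos) (min_le_right _ _)
        obtain ⟨R, hRN, hR1, hR⟩ := exists_good η hη N
        obtain ⟨y, hy, hy2⟩ := h3 R hR1 hR α β (by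
          have := min_le_left (β - α) (1 : ℝ)
          linarith)
        obtain ⟨x, hxu, hxy⟩ := hx y hy
        refine ⟨R, hRN, x, hxu, ?_⟩
        rw [hxy]
        exact hy2
    · exact Eventually.of_forall fun x _ h => absurd h hq
  have h2 : ∀ᶠ x in residual ℝ, ∀ (r s q : ℚ), r ≠ 0 → (q : ℝ) < c₀ →
      ∃ᶠ R : ℕ in atTop, (q : ℝ) * Real.sqrt R < G R (r * x + s) :=
    eventually_countable_forall.2 fun r => eventually_countable_forall.2 fun s =>
      eventually_countable_forall.2 fun q => h1 r s q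
  filter_upwards [h2] with x hx r s hr c hc
  obtain ⟨q, hq1, hq2⟩ := exists_rat_btwn hc
  refine (hx r s q hr hq2).mono fun R hR => lt_of_le_of_lt ?_ hR
  exact mul_le_mul_of_nonneg_right hq1.le (Real.sqrt_nonneg _)

lemma K_exp (K : ℝ) : K ≤ Real.exp (Real.log (max K 1)) ∧ 0 ≤ Real.log (max K 1) := by
  rw [Real.exp_log (lt_of_lt_of_le one_pos (le_max_right _ _))]
  exact ⟨le_max_left _ _, Real.log_nonneg (le_max_right _ _)⟩

theorem result :
    (∃ E : Set ℕ, LogDensityZero E ∧ ∀ K ε : ℝ, 0 < ε → ∃ T₀ : ℕ, ∀ T : ℕ, T₀ ≤ T → T ∉ E →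
      ∀ R : ℕ, T ≤ R → (R : ℝ) ≤ K * T → LocalParseval ε R ∧ LargeEverywhere ε R) ∧
    (∀ K ε : ℝ, 0 < ε → ∃ B T₀ : ℕ, ∀ T : ℕ, T₀ ≤ T → ∃ T' : ℕ, T < T' ∧ T' ≤ B * T ∧
      ∀ R : ℕ, T' ≤ R → (R : ℝ) ≤ K * T' → LocalParseval ε R ∧ LargeEverywhere ε R) ∧
    (∀ᶠ x in residual ℝ, ∀ r s : ℚ, r ≠ 0 → ∀ c : ℝ, c < Real.sqrt 6 / Real.pi →
      ∃ᶠ R : ℕ in atTop, c * Real.sqrt R < ‖F R (r * x + s)‖) ∧
    (∀ w : ℂ, ‖w‖ = 1 → ∀ᶠ x in residual ℝ, ∀ r s : ℚ, r ≠ 0 → ∀ c : ℝ, c < Real.sqrt 3 / Real.pi →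
      ∃ᶠ R : ℕ in atTop, c * Real.sqrt R < |(w * F R (r * x + s)).re|) := by
  refine ⟨?_, ?_, ?_, ?_⟩
  · obtain ⟨E, hE, hC⟩ := Pool.Agent.N806.HG.p_CHOW
    refine ⟨E, hE, fun K ε hε => ?_⟩
    obtain ⟨η, hη, hb⟩ := both ε hε
    obtain ⟨hK1, hK2⟩ := K_exp K
    obtain ⟨T0, hT0⟩ := Pool.Agent.T2h81.EA.equi_good hC (Real.log (max K 1)) hK2 η hη
    refine ⟨T0 + 1, fun T hT hTE R hR1 hR2 => hb R (by omega) (hT0 T (by omega) hTE R hR1 (hR2.trans ?_))⟩
    exact mul_le_mul_of_nonneg_right hK1 (Nat.cast_nonneg _)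
  · intro K ε hε
    obtain ⟨η, hη, hb⟩ := both ε hε
    obtain ⟨hK1, hK2⟩ := K_exp K
    obtain ⟨B, T0, -, hT0⟩ := Pool.Agent.T2h81.EA.equi_win (Real.log (max K 1)) η hη
    refine ⟨B, T0, fun T hT => ?_⟩
    obtain ⟨T', h1, h2, h3⟩ := hT0 T hT
    refine ⟨T', h1, h2, fun R hR1 hR2 => hb R (by omega) (h3 R hR1 (hR2.trans ?_))⟩
    exact mul_le_mul_of_nonneg_right hK1 (Nat.cast_nonneg _)
  · exact generic (fun R x => ‖F R x‖) (fun R => (F_cont R).norm) _ fun c l hc hl hl1 => large6 c l hc hl hl1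
  · intro w hw
    refine generic (fun R x => |(w * F R x).re|)
      (fun R => (Complex.continuous_re.comp (continuous_const.mul (F_cont R))).abs) _ fun c l hc hl hl1 => ?_
    obtain ⟨η, hη, h⟩ := large3 c l hc hl hl1
    exact ⟨η, hη, fun R hR hL α β hβ => h R hR hL α β hβ w hw⟩

end Pool.Agent.Results.MP_b6b996_nt.EveryArc
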