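import Pool.Agent.T2h81.EA.D3

set_option autoImplicit false

/-!
# The Möbius exponential sum, simultaneously at the points of a perfect set

Let `F_R(x) = ∑_{n ≤ R} μ(n) e(nx)`. A generic point `x` has infinitely many `R` such that `|F_R(x)|` is about
`√6/π √R`, the square root of the mean square (project EveryArc). Here we look at uncountably many points `x` with
the SAME lengths `R`.

(1) For a generic continuous map `f` of the Cantor space `2^ℕ` to the line (a comeagre set in the complete metric
space of all the continuous maps), `f` is injective, and there are infinitely many `R` such that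
`|F_R(f ξ)| = (√6/π ± ε) √R` for ALL `ξ`. Moreover, if `w` is any continuous function on the Cantor space with values
of absolute value `1`, then there are infinitely many `R` such that the real part of `w(ξ) F_R(f ξ)` has an absolute
value larger than `c √R`, `c < √3/π`, for ALL `ξ`. So the directions can be prescribed (up to the sign). The lengths
may also be chosen as `R = κ(ξ) T` with a common large `T` and any prescribed continuous (that is, locally
constant) `κ : 2^ℕ → {1, 2, ...}`, and the points may be replaced by `r f(ξ) + s`, `r ≠ 0` and `s` rational.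

(2) Such maps exist with values in any given interval. (3) So every interval contains a nonempty perfect compact set
`K` such that for infinitely many `R` the function `|F_R| / √R` is nearly constant on `K`, with the value `√6/π`, and
such that for every continuous `w : K → {|w| = 1}` there are infinitely many `R` such that the absolute value of the
real part of `w(x) F_R(x)` is larger than `c √R` for all `x` in `K`.

Method. At infinitely many scales `T` the mean squares of `|F_R|` and of the real parts of `w F_R` over all arcs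
and all `R = k T`, `k ≤ K`, have the values of Parseval (the two point theorem of Tao). Hence every arc contains points
where the real part of `w F_R` is large, even after subtraction of `δ |F_R|`, a margin which makes a small change of
the direction possible. Locally constant maps are dense in the space of the continuous maps. Then the theorem of Baire.
-/

namespace Pool.Agent.Results.MP_b6b996_nt.PerfectSets

open Filter Topology

/-- The Möbius exponential sum `F_R(x) = ∑_{n=1}^R μ(n) e^{2πinx}`. -/
noncomputable def F (R : ℕ) (x : ℝ) : ℂ :=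
  ∑ n ∈ Finset.Icc 1 R, ((ArithmeticFunction.moebius n : ℤ) : ℂ) *
    Complex.exp (2 * Real.pi * Complex.I * n * x)

/-- For all rational `r ≠ 0`, `s` and all continuous `κ : 2^ℕ → {1, 2, ...}`: for all `ε > 0` there are infinitely
many `T` such that for all `ξ` the number `|F_R(r f(ξ) + s)|`, `R = κ(ξ) T`, differs by less than `ε √R` from
`√6/π √R`; for all continuous `w : 2^ℕ → {|w| = 1}` and all `c < √3/π` there are infinitely many `T` such that for
all `ξ` the real part of `w(ξ) F_R(r f(ξ) + s)`, `R = κ(ξ) T`, has an absolute value larger than `c √R`. -/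
def Simultaneous (f : C(ℕ → Bool, ℝ)) : Prop :=
  ∀ r s : ℚ, r ≠ 0 → ∀ κ : (ℕ → Bool) → ℕ, Continuous κ → (∀ ξ, 1 ≤ κ ξ) →
    (∀ ε : ℝ, 0 < ε → ∃ᶠ T : ℕ in atTop, ∀ ξ,
      |‖F (κ ξ * T) (r * f ξ + s)‖ - Real.sqrt 6 / Real.pi * Real.sqrt ((κ ξ * T : ℕ) : ℝ)| <
        ε * Real.sqrt ((κ ξ * T : ℕ) : ℝ)) ∧
    (∀ w : (ℕ → Bool) → ℂ, Continuous w → (∀ ξ, ‖w ξ‖ = 1) → ∀ c : ℝ, c < Real.sqrt 3 / Real.pi →
      ∃ᶠ T : ℕ in atTop, ∀ ξ,
        c * Real.sqrt ((κ ξ * T : ℕ) : ℝ) < |(w ξ * F (κ ξ * T) (r * f ξ + s)).re|)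

/-- The same for the points of a set `K` and `κ = 1`. -/
def SimultaneousOn (K : Set ℝ) : Prop :=
  ∀ r s : ℚ, r ≠ 0 →
    (∀ ε : ℝ, 0 < ε → ∃ᶠ R : ℕ in atTop, ∀ x ∈ K,
      |‖F R (r * x + s)‖ - Real.sqrt 6 / Real.pi * Real.sqrt R| < ε * Real.sqrt R) ∧
    (∀ w : ℝ → ℂ, ContinuousOn w K → (∀ x ∈ K, ‖w x‖ = 1) → ∀ c : ℝ, c < Real.sqrt 3 / Real.pi →
      ∃ᶠ R : ℕ in atTop, ∀ x ∈ K, c * Real.sqrt R < |(w x * F R (r * x + s)).re|)

theorem result :
    (∀ᶠ f : C(ℕ → Bool, ℝ) in residual C(ℕ → Bool, ℝ), Function.Injective f ∧ Simultaneous f) ∧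
    (∀ a b : ℝ, a < b → ∃ f : C(ℕ → Bool, ℝ), Function.Injective f ∧ Simultaneous f ∧ ∀ ξ, a < f ξ ∧ f ξ < b) ∧
    (∀ a b : ℝ, a < b → ∃ K : Set ℝ, K ⊆ Set.Ioo a b ∧ K.Nonempty ∧ IsCompact K ∧ Perfect K ∧
      SimultaneousOn K) := by
  refine ⟨Pool.Agent.T2h81.EA.gen_inj.and Pool.Agent.T2h81.EA.gen_all,
    fun a b hab => Pool.Agent.T2h81.EA.exists_in a b hab, fun a b hab => ?_⟩
  obtain ⟨f, hf, hG, hab'⟩ := Pool.Agent.T2h81.EA.exists_in a b hab
  refine ⟨Set.range f, ?_, Set.range_nonempty _, isCompact_range f.continuous, Pool.Agent.T2h81.EA.perf f hf,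
    fun r s hr => ?_⟩
  · rintro _ ⟨ξ, rfl⟩
    exact hab' ξ
  obtain ⟨h1, h2⟩ := hG r s hr (fun _ => 1) continuous_const (fun _ => le_rfl)
  refine ⟨fun ε hε => ?_, fun w hw hw1 c hc => ?_⟩
  · refine (h1 ε hε).mono fun T hT => ?_
    rintro _ ⟨ξ, rfl⟩
    have h3 := hT ξ
    rw [one_mul] at h3
    exact h3
  · refine (h2 (fun ξ => w (f ξ)) (hw.comp_continuous f.continuous fun ξ => ⟨ξ, rfl⟩)
      (fun ξ => hw1 _ ⟨ξ, rfl⟩) c hc).mono fun T hT => ?_
    rintro _ ⟨ξ, rfl⟩
    have h3 := hT ξ
    rw [one_mul] at h3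
    exact h3

end Pool.Agent.Results.MP_b6b996_nt.PerfectSets
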