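import Mathlib
import Pool.Agent.T2h83.AM.Few
import Pool.Agent.T2h83.AM.Main
import Pool.Agent.H373R2.T7.SupLiou

/-!
# The Moebius exponential sum in the residue classes of almost all moduli, uniformly in `x`

Q1 asks for the size of `F_R(x) = ∑_{n ≤ R} μ(n) e(n x)` uniformly in `x`. We split the sum into the residue classes modulo `q`
(equivalently, we take the mean square over the points `x + j / q`).

(1) For every sequence with `|f(n)| ≤ 1` a bound `X` for the sup norm of `∑_{n ≤ R} f(n) e(n x)` gives, for all moduli `q` of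
`(Q, 2 Q]` outside an exceptional set with at most `10 ^ 8 Q Δ ^ 2 (1 + log 2 R) ^ 2 X / R` elements, the bound
`R ^ 2 / (q Δ)` for the sum of the squares of the sums over the classes modulo `q`, UNIFORMLY in `x`. So if the exponent `θ`
of Q1 is less than `1`, this bound saves a power of `R` for almost all `q ≤ R / Δ`.

(2) For the Moebius function and every `A`, for all moduli `q` of `(Q, 2 Q]`, `Q ≤ R / (log R) ^ B`, except for at most
`Q / (log R) ^ A` of them, for EVERY real `x` the sum of the squares is at most `R ^ 2 / (q (log R) ^ A)`, so that in all but at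
most `q / (log R) ^ A` classes `b` modulo `q` the sum over the `n ≤ R`, `n ≡ b (mod q)`, is at most `R / (q (log R) ^ A)`. For
the largest moduli a class contains only `(log R) ^ B` numbers `n ≤ R`.

The exceptional moduli do not depend on `x`. Proof: large values of the sum on the translates of cells of length `1 / N` by
`j / q` are counted for all `q` at once (large sieve for the Farey differences, Fejer kernels, project AM).
-/

set_option autoImplicit false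

namespace Pool.Agent.Results.MP_b6b996_nt.ProgressionsUniformly

open Finset

/-- the exponential sum `∑_{n ≤ R} f(n) e(n x)` -/
noncomputable def S (f : ℕ → ℂ) (R : ℕ) (x : ℝ) : ℂ := ∑ n ∈ Icc 1 R, f n * Complex.exp (2 * Real.pi * Complex.I * n * x)

/-- the part of the sum in the residue class `b` modulo `q` -/
noncomputable def SC (f : ℕ → ℂ) (R q b : ℕ) (x : ℝ) : ℂ :=
  ∑ n ∈ (Icc 1 R).filter (fun n => n % q = b), f n * Complex.exp (2 * Real.pi * Complex.I * n * x)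

/-- the Moebius function -/
def mu (n : ℕ) : ℂ := ((ArithmeticFunction.moebius n : ℤ) : ℂ)

lemma S_eq (f : ℕ → ℂ) (R : ℕ) (x : ℝ) : S f R x = Pool.Agent.T2h83.AM.sm R f x := by
  unfold S Pool.Agent.T2h83.AM.sm
  refine sum_congr rfl fun n _ => ?_
  unfold Pool.Agent.H807R2.Dav.ee
  congr 2
  push_cast
  ring

lemma SC_eq (f : ℕ → ℂ) (R q b : ℕ) [NeZero q] (hb : b < q) (x : ℝ) :
    SC f R q b x = Pool.Agent.Y883.GJ.cl q R f x (b : ZMod q) := by
  unfold SC Pool.Agent.Y883.GJ.cl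
  have h1 : (Icc 1 R).filter (fun n => n % q = b) = (Icc 1 R).filter (fun n : ℕ => (n : ZMod q) = (b : ZMod q)) := by
    apply filter_congr
    intro n _
    rw [ZMod.natCast_eq_natCast_iff]
    unfold Nat.ModEq
    rw [Nat.mod_eq_of_lt hb]
  rw [h1]
  refine sum_congr rfl fun n _ => ?_
  unfold Pool.Agent.H807R2.Dav.ee
  congr 2
  push_cast
  ring

/-- the classes and the translates -/
lemma par (f : ℕ → ℂ) (R q : ℕ) (hq : 1 ≤ q) (x : ℝ) :
    ∑ j ∈ range q, ‖S f R (x + j / q)‖ ^ 2 = q * ∑ b ∈ range q, ‖SC f R q b x‖ ^ 2 := by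
  have : NeZero q := ⟨by omega⟩
  have h1 := Pool.Agent.T2h83.AM.P_eq q R f x
  have e1 : ∑ j ∈ range q, ‖S f R (x + j / q)‖ ^ 2 = ∑ c ∈ range q, ‖Pool.Agent.T2h83.AM.sm R f (x + c / q)‖ ^ 2 :=
    sum_congr rfl fun j _ => by rw [S_eq]
  rw [e1, h1]
  congr 1
  unfold Pool.Agent.Y614.GJ.Core.P
  symm
  refine sum_bij (fun b _ => (b : ZMod q)) (fun _ _ => mem_univ _) (fun b hb b' hb' h => ?_) (fun l _ => ?_) (fun b hb => ?_)
  · rw [mem_range] at hb hb'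
    rw [ZMod.natCast_eq_natCast_iff] at h
    unfold Nat.ModEq at h
    rwa [Nat.mod_eq_of_lt hb, Nat.mod_eq_of_lt hb'] at h
  · exact ⟨l.val, mem_range.2 (ZMod.val_lt l), ZMod.natCast_zmod_val l⟩
  · rw [SC_eq f R q b (mem_range.1 hb) x]

open Classical in
/-- the general inequality -/
lemma part_one (f : ℕ → ℂ) (hf : ∀ n, ‖f n‖ ≤ 1) (R Q : ℕ) (X Δ : ℝ) (hQ : 1 ≤ Q) (hX : 0 < X) (hΔ : 1 ≤ Δ)
    (hR : 16128 * Δ * Q ≤ R) (hsup : ∀ x, ‖S f R x‖ ≤ X) :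
    (((Ioc Q (2 * Q)).filter (fun q => ∃ x : ℝ, (R : ℝ) ^ 2 / (q * Δ) < ∑ b ∈ range q, ‖SC f R q b x‖ ^ 2)).card : ℝ) ≤
      10 ^ 8 * Q * Δ ^ 2 * (1 + Real.log (2 * R)) ^ 2 * (X / R) := by
  have hQ0 : (1 : ℝ) ≤ Q := by exact_mod_cast hQ
  have hRr : (16128 : ℝ) ≤ R := by nlinarith
  have hR1 : 1 ≤ R := by
    have : (1 : ℝ) ≤ R := by linarith
    exact_mod_cast this
  have hR0 : (0 : ℝ) < R := by linarith
  obtain ⟨l, hl⟩ : ∃ l, l = 1 + Real.log (2 * (R : ℝ)) := ⟨_, rfl⟩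
  have hl1 : 1 ≤ l := by
    rw [hl]
    have : 0 ≤ Real.log (2 * (R : ℝ)) := Real.log_nonneg (by linarith)
    linarith
  have hl0 : 0 < l := by linarith
  obtain ⟨H, hH⟩ : ∃ H : ℕ, H = R / (14 * Q) := ⟨_, rfl⟩
  have hHQ : 14 * H * Q ≤ R := by
    have := Nat.div_mul_le_self R (14 * Q)
    rw [← hH] at this
    calc 14 * H * Q = H * (14 * Q) := by ring
      _ ≤ R := this
  have hHlow : (R : ℝ) < (H + 1) * (14 * Q) := by
    have h1 := Nat.lt_div_mul_add (a := R) (b := 14 * Q) (by omega)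
    rw [← hH] at h1
    have h2 : R < (H + 1) * (14 * Q) := by
      calc R < H * (14 * Q) + 14 * Q := h1
        _ = _ := by ring
    exact_mod_cast h2
  have hHΔ : 1152 * Δ - 1 < (H : ℝ) := by
    by_contra hcon
    rw [not_lt] at hcon
    have h1 : ((H : ℝ) + 1) * (14 * Q) ≤ (1152 * Δ) * (14 * Q) := by
      apply mul_le_mul_of_nonneg_right _ (by positivity)
      linarith
    have h2 : (1152 * Δ) * (14 * (Q : ℝ)) = 16128 * Δ * Q := by ring
    linarith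
  have hH1r : (1151 : ℝ) < H := by linarith
  have hH1 : 1 ≤ H := by
    have : (1 : ℝ) < H := by linarith
    exact_mod_cast this.le
  have hH0 : (0 : ℝ) < H := by linarith
  have hH28 : (R : ℝ) ≤ 28 * Q * H := by nlinarith
  have h1 := Pool.Agent.T2h83.AM.few_bad (N := R) (Q := Q) (H := H) f hR1 hH1 hHQ (R : ℝ) X ((R : ℝ) ^ 2 / Δ) (6 * R * l ^ 2 / X)
    (by
      calc ∑ n ∈ Icc 1 R, ‖f n‖ ^ 2 ≤ ∑ _n ∈ Icc 1 R, (1 : ℝ) :=
            sum_le_sum fun n _ => pow_le_one₀ (norm_nonneg _) (hf n)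
        _ = R := by rw [sum_const, Nat.card_Icc, Nat.add_sub_cancel, nsmul_eq_mul, mul_one])
    (fun x => by rw [← S_eq]; exact hsup x) (by positivity) (by positivity) (by
      rw [← mul_div_assoc, le_div_iff₀ (by linarith)]
      have : 576 * Δ ≤ (H : ℝ) := by linarith
      calc 576 * (R : ℝ) * R * Δ = (576 * Δ) * R ^ 2 := by ring
        _ ≤ H * R ^ 2 := mul_le_mul_of_nonneg_right this (by positivity))
  rw [← hl] at h1
  have hΔ0 : 0 < Δ := by linarith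
  -- the two sets
  have hsub : ((Ioc Q (2 * Q)).filter (fun q => ∃ x : ℝ, (R : ℝ) ^ 2 / (q * Δ) < ∑ b ∈ range q, ‖SC f R q b x‖ ^ 2)).card ≤
      (Pool.Agent.T2h83.AM.badq R f Q ((R : ℝ) ^ 2 / Δ)).card := by
    apply card_le_card
    intro q hq
    rw [mem_filter] at hq
    obtain ⟨hq1, x, hx⟩ := hq
    have hq0 : 1 ≤ q := by rw [mem_Ioc] at hq1; omega
    have hq0r : (0 : ℝ) < q := by exact_mod_cast hq0
    unfold Pool.Agent.T2h83.AM.badq
    rw [mem_filter]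
    refine ⟨hq1, x, ?_⟩
    have h2 := par f R q hq0 x
    have e1 : ∑ c ∈ range q, ‖Pool.Agent.T2h83.AM.sm R f (x + c / q)‖ ^ 2 = ∑ j ∈ range q, ‖S f R (x + j / q)‖ ^ 2 :=
      sum_congr rfl fun j _ => by rw [S_eq]
    rw [e1, h2]
    calc (R : ℝ) ^ 2 / Δ = q * ((R : ℝ) ^ 2 / (q * Δ)) := by field_simp
      _ < _ := mul_lt_mul_of_pos_left hx hq0r
  have h2 : (((Ioc Q (2 * Q)).filter (fun q => ∃ x : ℝ, (R : ℝ) ^ 2 / (q * Δ) < ∑ b ∈ range q, ‖SC f R q b x‖ ^ 2)).card : ℝ) ≤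
      ((Pool.Agent.T2h83.AM.badq R f Q ((R : ℝ) ^ 2 / Δ)).card : ℝ) := by exact_mod_cast hsub
  refine h2.trans ?_
  obtain ⟨b, hb⟩ : ∃ b : ℝ, b = ((Pool.Agent.T2h83.AM.badq R f Q ((R : ℝ) ^ 2 / Δ)).card : ℝ) := ⟨_, rfl⟩
  rw [← hb] at h1 ⊢
  have hb0 : 0 ≤ b := by rw [hb]; exact Nat.cast_nonneg _
  rw [← hl]
  have h3 : 6144 * (R : ℝ) * (6 * R * l ^ 2 / X * (X ^ 2 * (36 * R * R)) + (36 * R * R) ^ 2 * l ^ 3 / (6 * R * l ^ 2 / X)) =
      6144 * 216 * (R : ℝ) ^ 4 * X * (l ^ 2 + l) := by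
    field_simp
    ring
  rw [h3] at h1
  have h4 : l ^ 2 + l ≤ 2 * l ^ 2 := by nlinarith
  have h5 : b * (H * ((R : ℝ) ^ 2 / Δ) ^ 2) = b * H * (R ^ 4 / Δ ^ 2) := by
    field_simp
  rw [h5] at h1
  have h6 : b * H * ((R : ℝ) ^ 4 / Δ ^ 2) ≤ 6144 * 216 * (R : ℝ) ^ 4 * X * (2 * l ^ 2) := by
    refine h1.trans ?_
    gcongr
  have h7 : b * H ≤ 6144 * 432 * X * l ^ 2 * Δ ^ 2 := by
    have h8 : (b * H) * ((R : ℝ) ^ 4 / Δ ^ 2) ≤ (6144 * 432 * X * l ^ 2 * Δ ^ 2) * ((R : ℝ) ^ 4 / Δ ^ 2) := by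
      refine h6.trans (le_of_eq ?_)
      field_simp
      ring
    exact le_of_mul_le_mul_right h8 (by positivity)
  have h8 : b * R ≤ (10 ^ 8 * Q * Δ ^ 2 * l ^ 2 * (X / R)) * R := by
    calc b * R ≤ b * (28 * Q * H) := by gcongr
      _ = 28 * Q * (b * H) := by ring
      _ ≤ 28 * Q * (6144 * 432 * X * l ^ 2 * Δ ^ 2) := by gcongr
      _ = (74317824 : ℝ) * (Q * Δ ^ 2 * l ^ 2 * X) := by ring
      _ ≤ (10 ^ 8 : ℝ) * (Q * Δ ^ 2 * l ^ 2 * X) := by
          apply mul_le_mul_of_nonneg_right (by norm_num) (by positivity)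
      _ = _ := by field_simp
  exact le_of_mul_le_mul_right h8 hR0

open Classical in
/-- (1) Let `|f(n)| ≤ 1` for all `n`, and let `X` be a bound for `|∑_{n ≤ R} f(n) e(n x)|`, uniformly in `x`. Let `Δ ≥ 1`,
`Q ≥ 1` and `16128 Δ Q ≤ R`. For all moduli `q` in `(Q, 2 Q]`, except for at most `10 ^ 8 Q Δ ^ 2 (1 + log 2 R) ^ 2 X / R` of
them, and for every real `x` the sum of the squares of the absolute values of the sums over the residue classes `b` modulo `q`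
is at most `R ^ 2 / (q Δ)`.

(2) For every `A` there are `B` and `R₀` such that for all `R ≥ R₀` and all `Q` with `Q (log R) ^ B ≤ R`: for all moduli `q` in
`(Q, 2 Q]`, except for at most `Q / (log R) ^ A` of them, and for EVERY real `x`, the sum of the squares of the absolute values
of the sums `∑_{n ≤ R, n ≡ b (mod q)} μ(n) e(n x)` over the classes `b` is at most `R ^ 2 / (q (log R) ^ A)`, the sum of the
`|F_R(x + j / q)| ^ 2`, `0 ≤ j < q`, is at most `R ^ 2 / (log R) ^ A`, and for all but at most `q / (log R) ^ A` classes `b` the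
sum over the class `b` has absolute value at most `R / (q (log R) ^ A)`. -/
theorem result :
    (∀ f : ℕ → ℂ, (∀ n, ‖f n‖ ≤ 1) → ∀ (R Q : ℕ) (X Δ : ℝ), 1 ≤ Q → 0 < X → 1 ≤ Δ → 16128 * Δ * Q ≤ R →
      (∀ x, ‖S f R x‖ ≤ X) →
      (((Ioc Q (2 * Q)).filter (fun q => ∃ x : ℝ, (R : ℝ) ^ 2 / (q * Δ) < ∑ b ∈ range q, ‖SC f R q b x‖ ^ 2)).card : ℝ) ≤
        10 ^ 8 * Q * Δ ^ 2 * (1 + Real.log (2 * R)) ^ 2 * (X / R)) ∧
    (∀ A : ℕ, ∃ B R₀ : ℕ, ∀ R : ℕ, R₀ ≤ R → ∀ Q : ℕ, (Q : ℝ) * Real.log R ^ B ≤ R →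
      ∃ E : Finset ℕ, (E.card : ℝ) ≤ Q / Real.log R ^ A ∧ ∀ q ∈ Ioc Q (2 * Q), q ∉ E → ∀ x : ℝ,
        (∑ b ∈ range q, ‖SC mu R q b x‖ ^ 2 ≤ (R : ℝ) ^ 2 / (q * Real.log R ^ A)) ∧
        (∑ j ∈ range q, ‖S mu R (x + j / q)‖ ^ 2 ≤ (R : ℝ) ^ 2 / Real.log R ^ A) ∧
        (((range q).filter (fun b => (R : ℝ) / (q * Real.log R ^ A) < ‖SC mu R q b x‖)).card : ℝ) ≤ q / Real.log R ^ A) := by
  refine ⟨fun f hf R Q X Δ hQ hX hΔ hR hsup => part_one f hf R Q X Δ hQ hX hΔ hR hsup, fun A => ?_⟩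
  have hmu : ∀ n, ‖mu n‖ ≤ 1 := fun n => Pool.Agent.H373R2.T7.muC_norm n
  obtain ⟨R₁, h1⟩ := Pool.Agent.H373R2.T7.sup_muC (7 * A + 4)
  obtain ⟨R₂, h2⟩ := Pool.Agent.H373R2.T7.ev_L' (10 ^ 9 + 16128)
  refine ⟨3 * A + 1, R₁ + R₂ + 3, fun R hR Q hQ => ?_⟩
  have c1 := h1 R (by omega)
  have c2 := h2 R (by omega)
  obtain ⟨L, hLd⟩ : ∃ L, L = Real.log (R : ℝ) := ⟨_, rfl⟩
  rw [← hLd] at c1 c2 hQ ⊢
  have hL1 : 1 ≤ L := by linarith
  have hL0 : 0 < L := by linarith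
  have hR0 : (0 : ℝ) < R := by exact_mod_cast (by omega : 0 < R)
  rcases Nat.eq_zero_or_pos Q with hQ0 | hQ0
  · subst hQ0
    refine ⟨∅, by simp, fun q hq => ?_⟩
    rw [mem_Ioc] at hq
    omega
  have hΔ1 : 1 ≤ L ^ (3 * A) := one_le_pow₀ hL1
  have h3 := part_one mu hmu R Q (R / L ^ (7 * A + 4)) (L ^ (3 * A)) hQ0 (by positivity) hΔ1 (by
    calc 16128 * L ^ (3 * A) * Q ≤ L * L ^ (3 * A) * Q := by gcongr; linarith
      _ = Q * L ^ (3 * A + 1) := by ring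
      _ ≤ R := hQ) (fun x => by
    rw [S_eq]
    exact c1 x)
  obtain ⟨E, hE⟩ : ∃ E, E = (Ioc Q (2 * Q)).filter (fun q => ∃ x : ℝ, (R : ℝ) ^ 2 / (q * L ^ (3 * A)) <
    ∑ b ∈ range q, ‖SC mu R q b x‖ ^ 2) := ⟨_, rfl⟩
  rw [← hE] at h3
  refine ⟨E, h3.trans ?_, fun q hq hqE x => ?_⟩
  · have h4 : 1 + Real.log (2 * R) ≤ 2 * L := by
      rw [Real.log_mul (by norm_num) hR0.ne', ← hLd]
      have := Real.log_two_lt_d9
      linarith
    have h5 : 0 ≤ 1 + Real.log (2 * (R : ℝ)) := by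
      have : 0 ≤ Real.log (2 * (R : ℝ)) := Real.log_nonneg (by
        have : (1 : ℝ) ≤ R := by exact_mod_cast (by omega : 1 ≤ R)
        linarith)
      linarith
    calc 10 ^ 8 * (Q : ℝ) * (L ^ (3 * A)) ^ 2 * (1 + Real.log (2 * R)) ^ 2 * (R / L ^ (7 * A + 4) / R)
        ≤ 10 ^ 8 * (Q : ℝ) * (L ^ (3 * A)) ^ 2 * (2 * L) ^ 2 * (R / L ^ (7 * A + 4) / R) := by gcongr
      _ = (4 * 10 ^ 8) * (Q * (L ^ (6 * A + 2) / L ^ (7 * A + 4))) := by
          rw [← pow_mul, show 3 * A * 2 = 6 * A by ring, pow_add L (6 * A) 2]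
          field_simp
          norm_num
      _ ≤ L * (Q * (L ^ (6 * A + 2) / L ^ (7 * A + 4))) := by
          apply mul_le_mul_of_nonneg_right (by linarith) (by positivity)
      _ = Q * (L ^ (6 * A + 3) / L ^ (7 * A + 4)) := by rw [pow_succ L (6 * A + 2)]; ring
      _ ≤ Q * (1 / L ^ A) := by
          apply mul_le_mul_of_nonneg_left _ (Nat.cast_nonneg _)
          rw [div_le_div_iff₀ (by positivity) (by positivity), one_mul, ← pow_add]
          exact pow_le_pow_right₀ hL1 (by omega)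
      _ = _ := by ring
  have hq1 : 1 ≤ q := by rw [mem_Ioc] at hq; omega
  have hq0 : (0 : ℝ) < q := by exact_mod_cast hq1
  have h4 : ∑ b ∈ range q, ‖SC mu R q b x‖ ^ 2 ≤ (R : ℝ) ^ 2 / (q * L ^ (3 * A)) := by
    by_contra hcon
    rw [not_le] at hcon
    exact hqE (by rw [hE, mem_filter]; exact ⟨hq, x, hcon⟩)
  have h5 : (R : ℝ) ^ 2 / (q * L ^ (3 * A)) ≤ (R : ℝ) ^ 2 / (q * L ^ A) := by
    apply div_le_div_of_nonneg_left (by positivity) (by positivity)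
    apply mul_le_mul_of_nonneg_left _ hq0.le
    exact pow_le_pow_right₀ hL1 (by omega)
  refine ⟨h4.trans h5, ?_, ?_⟩
  · rw [par mu R q hq1 x]
    calc (q : ℝ) * ∑ b ∈ range q, ‖SC mu R q b x‖ ^ 2 ≤ q * ((R : ℝ) ^ 2 / (q * L ^ A)) :=
          mul_le_mul_of_nonneg_left (h4.trans h5) hq0.le
      _ = _ := by field_simp
  · obtain ⟨c, hc⟩ : ∃ c : ℝ, c = (((range q).filter (fun b => (R : ℝ) / (q * L ^ A) < ‖SC mu R q b x‖)).card : ℝ) := ⟨_, rfl⟩
    rw [← hc]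
    have h6 : c * ((R : ℝ) / (q * L ^ A)) ^ 2 ≤ (R : ℝ) ^ 2 / (q * L ^ (3 * A)) := by
      refine le_trans ?_ h4
      calc c * ((R : ℝ) / (q * L ^ A)) ^ 2 = ∑ _b ∈ (range q).filter (fun b => (R : ℝ) / (q * L ^ A) < ‖SC mu R q b x‖),
            ((R : ℝ) / (q * L ^ A)) ^ 2 := by rw [sum_const, nsmul_eq_mul, hc]
        _ ≤ ∑ b ∈ (range q).filter (fun b => (R : ℝ) / (q * L ^ A) < ‖SC mu R q b x‖), ‖SC mu R q b x‖ ^ 2 := by
            refine sum_le_sum fun b hb => ?_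
            exact pow_le_pow_left₀ (by positivity) (mem_filter.1 hb).2.le 2
        _ ≤ _ := sum_le_sum_of_subset_of_nonneg (filter_subset _ _) (fun _ _ _ => by positivity)
    have h7 : c * ((R : ℝ) ^ 2 / (q ^ 2 * L ^ (2 * A))) ≤ (q / L ^ A) * ((R : ℝ) ^ 2 / (q ^ 2 * L ^ (2 * A))) := by
      calc c * ((R : ℝ) ^ 2 / (q ^ 2 * L ^ (2 * A))) = c * ((R : ℝ) / (q * L ^ A)) ^ 2 := by
            rw [div_pow, mul_pow, ← pow_mul, show A * 2 = 2 * A by ring]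
        _ ≤ (R : ℝ) ^ 2 / (q * L ^ (3 * A)) := h6
        _ = _ := by
            rw [show 3 * A = A + 2 * A by ring, pow_add L A (2 * A)]
            field_simp
    exact le_of_mul_le_mul_right h7 (by positivity)

end Pool.Agent.Results.MP_b6b996_nt.ProgressionsUniformly
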