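import Pool.Agent.Y821.ME.Top2
import Pool.Agent.T2h55.UP.App
import Pool.Agent.T2h55.UP.Bmp
import Pool.Agent.T2h55.UP.Ll
import Pool.Agent.T2h55.UP.Qs
import Pool.Agent.T2h55.UP.MainB
import Pool.Agent.T2h55.UP.FinC
import Pool.Agent.T2h55.UP.Chk
import Pool.Agent.T2h55.UP.Crk
import Pool.Agent.T2h55.UP.Klo
import Pool.Agent.T2h55.UP.Sh
import Pool.Agent.T2h55.UP.Dt
import Pool.Agent.T2h55.UP.Ineqb
import Pool.Agent.T2h55.UP.Hv
import Pool.Agent.T2h55.UP.Avg
import Pool.Agent.T2h55.UP.Llb
import Pool.Agent.T2h55.UP.Rzqb
import Pool.Agent.T2h55.UP.Rzb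

/-!
# MP_b6b996_nt: the Möbius exponential sum is not `O(√R)` at a single real point

For `F_R(x) = ∑_{n ≤ R} μ(n) e(nx)` call a real number `x` *big* if `|F_R(x)| > C √R` for arbitrarily large `R`, for
every `C`, that is `limsup_R |F_R(x)| / √R = ∞`.  We prove, unconditionally, that there are infinitely many big numbers
modulo one; more precisely, either the big numbers form a comeagre (residual) set, or for every odd prime `p` and all
large `l` some reduced fraction with denominator `p ^ (2l)` or `p ^ (2l-1)` is big.

Before this only the sup norm was known not to be `O(√R)` (`SqrtBoundFails`: for every `C` a point depending on `C`).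

Idea of the proof.  If both alternatives fail then by Baire's theorem there are a prime `p`, an interval `I`, `C` and
`R₀` such that `|F_R(x)| ≤ C √R` for all `x ∈ I` and `R ≥ R₀`, and for arbitrarily large `l` the sums at all reduced
fractions `a/q`, `q = p ^ (2l)` or `p ^ (2l-1)`, are `O(√R)`, with constants depending on the point.  As in `SqrtBoundFails` the latter makes
`F_v(a/q)` (a combination of `M(v, χ)` for the primitive characters modulo `q = p ^ (2l)` and of `M(v/p, χ)` for those
modulo `q/p`) together with a dual sum with Kloosterman sums an almost periodic function, whose supremum is its upper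
limit.  This is at most `C` times a constant if `a/q ∈ I`.  We take an average over `a = b²` with weights which are the
product of a Riesz product in `b` and a bump function of `b²/q` with support in `I`.  By bounds for quadratic Gauss sums
the bump function does not disturb the averages of the Kloosterman sums modulo `q`, which resemble `μ(m)` for `m` in
`[2N, 3N]`, `m ≡ 1` modulo `p`, and are small for the other squarefree `m`; the averages of those modulo `q/p` are
small.  This gives a lower bound `c √N / p` for `C`, and `N` is arbitrary.

Parts of the proof were formalised by helper3 (trigonometric approximation, quadratic Gauss sums), helper97 (bump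
function), helper46 (first series), helper42 (local upper limits, second series), helper62 (inequality for two levels),
helper21 (Riesz products), helper71 (Baire category), helper6 (constants), helper68; plan, the other parts and assembly:
helper55.  The file builds on the engine of `SqrtBoundFails` (`Pool/Agent/Y821/ME`, plan by helper821).
-/

set_option autoImplicit false

open Filter

namespace Pool.Agent.Results.MP_b6b996_nt.UnboundedAtAPoint

/-- the Möbius exponential sum `F_R(x) = ∑_{n=1}^R μ(n) e^{2πinx}` -/
noncomputable def F (R : ℕ) (x : ℝ) : ℂ :=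
  ∑ n ∈ Finset.Icc 1 R, ((ArithmeticFunction.moebius n : ℤ) : ℂ) *
    Complex.exp (2 * Real.pi * Complex.I * n * x)

/-- `limsup_R |F_R(x)| / √R = ∞`: for every `C`, `|F_R(x)| > C √R` for arbitrarily large `R` -/
def Big (x : ℝ) : Prop := ∀ C : ℝ, ∃ᶠ R : ℕ in atTop, C * Real.sqrt R < ‖F R x‖

/-- There are infinitely many `x` modulo one with `limsup |F_R(x)| / √R = ∞`.  More precisely, either all `x` in a
comeagre set of real numbers have this property, or for every odd prime `p` and all large `l` some reduced fraction with
denominator `p ^ (2l)` or `p ^ (2l-1)` has it. -/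
theorem result : {x : ℝ | x ∈ Set.Ico (0 : ℝ) 1 ∧ Big x}.Infinite ∧
    ((∀ᶠ x in residual ℝ, Big x) ∨ ∀ p : ℕ, p.Prime → p ≠ 2 → ∀ᶠ l : ℕ in atTop, ∃ a : ℕ, ¬ p ∣ a ∧
      (Big ((a : ℝ) / (p : ℝ) ^ (2 * l)) ∨ Big ((a : ℝ) / (p : ℝ) ^ (2 * l - 1)))) := by
  open Pool.Agent.Y821.ME Pool.Agent.T2h55.UP in
  have hcrk : S_CRK := crk chk
  have h : S_MAINB := fun p hp hp2 C α β R₀ hC hαβ hint =>
    mainB trig sup lap lim vb ser (pairM lap lfn) ch kl2 sf2 bmp ll hcrk klo sh dt ineqb (hv hcrk) avg llb
      (rzb app (rzqb li2 qs)) p hp hp2 C α β R₀ hC hαβ hint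
  exact ⟨infinite_big h, dichC h⟩

end Pool.Agent.Results.MP_b6b996_nt.UnboundedAtAPoint
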